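import Pool.Agent.H525.EX.Stm5
import Pool.Agent.H236.QF.RR
import Pool.Agent.H277.QF.EX

/-!
# Weighted Riemann-Roch, second kind (helper200, for helper525, MP_484c84_nt)
-/

set_option autoImplicit false
set_option linter.unusedSectionVars false
set_option linter.unusedVariables false

namespace Pool.Agent.H200.EX

open Polynomial Pool.Agent.H525.QF Pool.Agent.H525.EX
open scoped Classical

noncomputable section

namespace TW0

variable {K : Type} [Field K] [Fintype K]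

/-- the index set of `T0` -/
def Sm (b τ : K[X]) (m : ℕ) : Finset (K[X] × K[X]) :=
  ((mon K m) ×ˢ (lt K m)).filter (fun v => b ∣ v.1 + τ * v.2)

def t0 (ω : K → ℝ) (b τ : K[X]) (m : ℕ) : ℝ := ∑ v ∈ Sm b τ m, ω (v.2.coeff (m - 1))

theorem mem_Sm {b τ : K[X]} {m : ℕ} {v : K[X] × K[X]} : v ∈ Sm b τ m ↔
    (v.1.Monic ∧ v.1.natDegree = m) ∧ v.2.degree < m ∧ b ∣ v.1 + τ * v.2 := by
  unfold Sm
  rw [Finset.mem_filter, Finset.mem_product, mem_mon, mem_lt]
  tauto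

theorem dC {n : ℕ} (c : K) {p : K[X]} (h : p.degree < n) : (C c * p).degree < n := by
  rw [← smul_eq_C_mul]
  exact lt_of_le_of_lt (degree_smul_le c p) h

theorem nd {n : ℕ} {p : K[X]} (h : p.degree < ((n + 1 : ℕ) : WithBot ℕ)) : p.natDegree ≤ n := by
  by_contra hcon
  have h0 : p ≠ 0 := by
    rintro rfl
    simp at hcon
  rw [degree_eq_natDegree h0] at h
  have h1 : p.natDegree < n + 1 := by exact_mod_cast h
  omega

theorem trans_zero (S : Finset (K[X] × K[X])) (f : K[X] × K[X] → K) (w : K[X] × K[X])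
    (hS : ∀ v ∈ S, ∀ c : K, (v.1 + C c * w.1, v.2 + C c * w.2) ∈ S)
    (hf : ∀ v c, f (v.1 + C c * w.1, v.2 + C c * w.2) = f v + c) (ω : K → ℝ)
    (hω : ∑ c, ω c = 0) : ∑ v ∈ S, ω (f v) = 0 := by
  have h1 : ∀ c : K, ∑ v ∈ S, ω (f v) = ∑ v ∈ S, ω (f v + c) := by
    intro c
    symm
    refine Finset.sum_nbij' (fun v => (v.1 + C c * w.1, v.2 + C c * w.2))
      (fun v => (v.1 + C (-c) * w.1, v.2 + C (-c) * w.2)) ?_ ?_ ?_ ?_ ?_
    · intro v hv
      exact hS v hv c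
    · intro v hv
      exact hS v hv (-c)
    · intro v _
      refine Prod.ext ?_ ?_
      · change v.1 + C c * w.1 + C (-c) * w.1 = v.1
        rw [C_neg]
        ring
      · change v.2 + C c * w.2 + C (-c) * w.2 = v.2
        rw [C_neg]
        ring
    · intro v _
      refine Prod.ext ?_ ?_
      · change v.1 + C (-c) * w.1 + C c * w.1 = v.1
        rw [C_neg]
        ring
      · change v.2 + C (-c) * w.2 + C c * w.2 = v.2
        rw [C_neg]
        ring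
    · intro v _
      rw [hf]
  have h2 : (Fintype.card K : ℝ) * ∑ v ∈ S, ω (f v) = 0 := by
    have h3 : ∑ c : K, ∑ v ∈ S, ω (f v) = ∑ c : K, ∑ v ∈ S, ω (f v + c) :=
      Finset.sum_congr rfl fun c _ => h1 c
    rw [Finset.sum_const, Finset.card_univ, nsmul_eq_mul] at h3
    rw [h3, Finset.sum_comm]
    refine Finset.sum_eq_zero fun v _ => ?_
    rw [← hω]
    exact Fintype.sum_equiv (Equiv.addLeft (f v)) _ _ (fun c => rfl)
  exact (mul_eq_zero.1 h2).resolve_left (by exact_mod_cast Fintype.card_ne_zero)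

/-- the pair `(0, 1)` is attained -/
def B (b τ : K[X]) (m : ℕ) : Prop := ∃ w : K[X] × K[X], w.1.degree < m ∧ w.2.degree < m ∧
  b ∣ w.1 + τ * w.2 ∧ w.2.coeff (m - 1) = 1

theorem zero_of_B {b τ : K[X]} {m : ℕ} (hB : B b τ m) {ω : K → ℝ} (hω : ∑ c, ω c = 0) :
    t0 ω b τ m = 0 := by
  obtain ⟨w, h1, h2, h3, h4⟩ := hB
  refine trans_zero (Sm b τ m) (fun v => v.2.coeff (m - 1)) w ?_ ?_ ω hω
  · intro v hv c
    rw [mem_Sm] at hv ⊢
    obtain ⟨⟨hm, hd⟩, hv2, hv3⟩ := hv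
    have h5 : (C c * w.1).degree < v.1.degree := by
      rw [degree_eq_natDegree hm.ne_zero, hd]
      exact dC c h1
    refine ⟨⟨hm.add_of_left h5, ?_⟩, ?_, ?_⟩
    · change (v.1 + C c * w.1).natDegree = m
      rw [natDegree_add_eq_left_of_degree_lt h5, hd]
    · exact lt_of_le_of_lt (degree_add_le _ _) (max_lt hv2 (dC c h2))
    · change b ∣ v.1 + C c * w.1 + τ * (v.2 + C c * w.2)
      have h6 : v.1 + C c * w.1 + τ * (v.2 + C c * w.2) =
          (v.1 + τ * v.2) + C c * (w.1 + τ * w.2) := by ring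
      rw [h6]
      exact dvd_add hv3 (Dvd.dvd.mul_left h3 _)
  · intro v c
    change (v.2 + C c * w.2).coeff (m - 1) = v.2.coeff (m - 1) + c
    rw [coeff_add, coeff_C_mul, h4, mul_one]

theorem B_of_ge {b τ : K[X]} {m l : ℕ} (hb : b.Monic) (hl : b.natDegree = l) (hm : 1 ≤ m)
    (hlm : l ≤ m) : B b τ m := by
  refine ⟨((-(τ * X ^ (m - 1))) %ₘ b, X ^ (m - 1)), ?_, ?_, ?_, ?_⟩
  · have h1 := degree_modByMonic_lt (-(τ * X ^ (m - 1))) hb
    rw [degree_eq_natDegree hb.ne_zero, hl] at h1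
    refine lt_of_lt_of_le h1 ?_
    exact_mod_cast hlm
  · change (X ^ (m - 1) : K[X]).degree < m
    rw [degree_X_pow]
    exact_mod_cast (by omega : m - 1 < m)
  · change b ∣ (-(τ * X ^ (m - 1))) %ₘ b + τ * X ^ (m - 1)
    have h1 := modByMonic_add_div (-(τ * X ^ (m - 1))) b
    refine ⟨-((-(τ * X ^ (m - 1))) /ₘ b), ?_⟩
    linear_combination h1
  · change (X ^ (m - 1) : K[X]).coeff (m - 1) = 1
    rw [coeff_X_pow, if_pos rfl]

theorem iso {b τ : K[X]} {m m' l : ℕ} (hb : b.Monic) (hl : b.natDegree = l) (hml : m + m' = l)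
    (hm : 1 ≤ m) (hm' : 1 ≤ m') {v v' : K[X] × K[X]} (h1 : v.1.natDegree ≤ m)
    (h2 : v.2.natDegree ≤ m - 1) (h3 : b ∣ v.1 + τ * v.2) (h1' : v'.1.natDegree ≤ m')
    (h2' : v'.2.natDegree ≤ m' - 1) (h3' : b ∣ v'.1 + τ * v'.2) :
    v.1.coeff m * v'.2.coeff (m' - 1) = v'.1.coeff m' * v.2.coeff (m - 1) := by
  have hd : b ∣ v.1 * v'.2 - v'.1 * v.2 := by
    have h4 : v.1 * v'.2 - v'.1 * v.2 = (v.1 + τ * v.2) * v'.2 - (v'.1 + τ * v'.2) * v.2 := by ring
    rw [h4]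
    exact dvd_sub (Dvd.dvd.mul_right h3 _) (Dvd.dvd.mul_right h3' _)
  have hn : (v.1 * v'.2 - v'.1 * v.2).natDegree < l := by
    refine lt_of_le_of_lt (natDegree_sub_le _ _) (max_lt ?_ ?_)
    · refine lt_of_le_of_lt natDegree_mul_le ?_
      omega
    · refine lt_of_le_of_lt natDegree_mul_le ?_
      omega
  have h0 : v.1 * v'.2 - v'.1 * v.2 = 0 := by
    refine eq_zero_of_dvd_of_natDegree_lt hd ?_
    rw [hl]
    exact hn
  have h5 : (v.1 * v'.2).coeff (m + (m' - 1)) = (v'.1 * v.2).coeff (m + (m' - 1)) := by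
    rw [sub_eq_zero.1 h0]
  rw [coeff_mul_add_eq_of_natDegree_le h1 h2', show m + (m' - 1) = m' + (m - 1) by omega,
    coeff_mul_add_eq_of_natDegree_le h1' h2] at h5
  exact h5

theorem nB_coeff {b τ : K[X]} {m : ℕ} (hB : ¬ B b τ m) {w : K[X] × K[X]} (h1 : w.1.degree < m)
    (h2 : w.2.degree < m) (h3 : b ∣ w.1 + τ * w.2) : w.2.coeff (m - 1) = 0 := by
  by_contra h4
  apply hB
  refine ⟨(C (w.2.coeff (m - 1))⁻¹ * w.1, C (w.2.coeff (m - 1))⁻¹ * w.2), dC _ h1, dC _ h2, ?_, ?_⟩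
  · change b ∣ C (w.2.coeff (m - 1))⁻¹ * w.1 + τ * (C (w.2.coeff (m - 1))⁻¹ * w.2)
    have h5 : C (w.2.coeff (m - 1))⁻¹ * w.1 + τ * (C (w.2.coeff (m - 1))⁻¹ * w.2) =
        C (w.2.coeff (m - 1))⁻¹ * (w.1 + τ * w.2) := by ring
    rw [h5]
    exact Dvd.dvd.mul_left h3 _
  · change (C (w.2.coeff (m - 1))⁻¹ * w.2).coeff (m - 1) = 1
    rw [coeff_C_mul, inv_mul_cancel₀ h4]

theorem nB_L {b τ : K[X]} {m : ℕ} (hB : ¬ B b τ m) : L m m b τ = L m (m - 1) b τ := by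
  unfold L
  congr 1
  ext v
  rw [Finset.mem_filter, Finset.mem_filter, Finset.mem_product, Finset.mem_product, mem_lt, mem_lt,
    mem_lt]
  constructor
  · rintro ⟨⟨h1, h2⟩, h3⟩
    refine ⟨⟨h1, ?_⟩, h3⟩
    rw [degree_lt_iff_coeff_zero]
    intro k hk
    rcases Nat.eq_or_lt_of_le hk with h | h
    · rw [← h]
      exact nB_coeff hB h1 h2 h3
    · rw [degree_lt_iff_coeff_zero] at h2
      exact h2 k (by omega)
  · rintro ⟨⟨h1, h2⟩, h3⟩
    refine ⟨⟨h1, lt_of_lt_of_le h2 ?_⟩, h3⟩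
    exact_mod_cast Nat.sub_le m 1

theorem L_split (b τ : K[X]) (m : ℕ) :
    L (m + 1) m b τ = L m m b τ + (Fintype.card K - 1) * (Sm b τ m).card := by
  unfold L Sm
  refine Pool.Agent.H277.QF.split' (fun v => b ∣ v.1 + τ * v.2) ?_ m m
  intro c hc v
  have h1 : C c * v.1 + τ * (C c * v.2) = C c * (v.1 + τ * v.2) := by ring
  change b ∣ C c * v.1 + τ * (C c * v.2) ↔ _
  rw [h1]
  have hu : IsUnit (C c) := isUnit_C.2 hc.isUnit
  exact hu.dvd_mul_left

theorem sub_deg {m : ℕ} {p r : K[X]} (hp : p.Monic ∧ p.natDegree = m) (hr : r.Monic ∧ r.natDegree = m) :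
    (p - r).degree < m := by
  have h := degree_sub_lt_left (p := p) (q := r) (by
    rw [degree_eq_natDegree hp.1.ne_zero, degree_eq_natDegree hr.1.ne_zero, hp.2, hr.2]) hp.1.ne_zero (by
    rw [hp.1.leadingCoeff, hr.1.leadingCoeff])
  rwa [degree_eq_natDegree hp.1.ne_zero, hp.2] at h

theorem card_Sm {b τ : K[X]} {m : ℕ} {v₀ : K[X] × K[X]} (hv₀ : v₀ ∈ Sm b τ m) :
    (Sm b τ m).card = L m m b τ := by
  unfold L
  have hv0 := mem_Sm.1 hv₀
  refine Finset.card_nbij' (fun v => (v.1 - v₀.1, v.2 - v₀.2)) (fun w => (w.1 + v₀.1, w.2 + v₀.2))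
    ?_ ?_ ?_ ?_
  · intro v hv
    have hv1 := mem_Sm.1 hv
    rw [Finset.mem_coe, Finset.mem_filter, Finset.mem_product, mem_lt, mem_lt]
    refine ⟨⟨sub_deg hv1.1 hv0.1, ?_⟩, ?_⟩
    · exact lt_of_le_of_lt (degree_sub_le _ _) (max_lt hv1.2.1 hv0.2.1)
    · change b ∣ v.1 - v₀.1 + τ * (v.2 - v₀.2)
      have h1 : v.1 - v₀.1 + τ * (v.2 - v₀.2) = (v.1 + τ * v.2) - (v₀.1 + τ * v₀.2) := by ring
      rw [h1]
      exact dvd_sub hv1.2.2 hv0.2.2
  · intro w hw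
    rw [Finset.mem_coe, Finset.mem_filter, Finset.mem_product, mem_lt, mem_lt] at hw
    obtain ⟨⟨h1, h2⟩, h3⟩ := hw
    rw [Finset.mem_coe, mem_Sm]
    have h4 : w.1.degree < v₀.1.degree := by
      rw [degree_eq_natDegree hv0.1.1.ne_zero, hv0.1.2]
      exact h1
    refine ⟨⟨hv0.1.1.add_of_right h4, ?_⟩, ?_, ?_⟩
    · change (w.1 + v₀.1).natDegree = m
      rw [natDegree_add_eq_right_of_degree_lt h4, hv0.1.2]
    · exact lt_of_le_of_lt (degree_add_le _ _) (max_lt h2 hv0.2.1)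
    · change b ∣ w.1 + v₀.1 + τ * (w.2 + v₀.2)
      have h5 : w.1 + v₀.1 + τ * (w.2 + v₀.2) = (w.1 + τ * w.2) + (v₀.1 + τ * v₀.2) := by ring
      rw [h5]
      exact dvd_add h3 hv0.2.2
  · intro v _
    exact Prod.ext (sub_add_cancel _ _) (sub_add_cancel _ _)
  · intro w _
    exact Prod.ext (add_sub_cancel_right _ _) (add_sub_cancel_right _ _)

theorem t0_eq {b τ : K[X]} {m : ℕ} (hB : ¬ B b τ m) {v₀ : K[X] × K[X]} (hv₀ : v₀ ∈ Sm b τ m)
    (ω : K → ℝ) : t0 ω b τ m = (L m m b τ : ℝ) * ω (v₀.2.coeff (m - 1)) := by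
  rw [← card_Sm hv₀]
  unfold t0
  rw [← nsmul_eq_mul, ← Finset.sum_const]
  refine Finset.sum_congr rfl fun v hv => ?_
  have hv0 := mem_Sm.1 hv₀
  have hv1 := mem_Sm.1 hv
  congr 1
  have h1 : (v.2 - v₀.2).coeff (m - 1) = 0 := by
    refine nB_coeff hB (w := (v.1 - v₀.1, v.2 - v₀.2)) (sub_deg hv1.1 hv0.1) ?_ ?_
    · exact lt_of_le_of_lt (degree_sub_le _ _) (max_lt hv1.2.1 hv0.2.1)
    · change b ∣ v.1 - v₀.1 + τ * (v.2 - v₀.2)
      have h1 : v.1 - v₀.1 + τ * (v.2 - v₀.2) = (v.1 + τ * v.2) - (v₀.1 + τ * v₀.2) := by ring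
      rw [h1]
      exact dvd_sub hv1.2.2 hv0.2.2
  rw [coeff_sub] at h1
  exact sub_eq_zero.1 h1

theorem L_pos (b τ : K[X]) (a c : ℕ) : 0 < L a c b τ := by
  unfold L
  refine Finset.card_pos.2 ⟨(0, 0), ?_⟩
  rw [Finset.mem_filter, Finset.mem_product, mem_lt, mem_lt, degree_zero]
  exact ⟨⟨WithBot.bot_lt_coe _, WithBot.bot_lt_coe _⟩, by simp⟩

/-- if `(0, 1)` is attained for `m`, nothing is attained for `m'` -/
theorem empty_of_B {b τ : K[X]} {m m' l : ℕ} (hb : b.Monic) (hl : b.natDegree = l)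
    (hml : m + m' = l) (hm : 1 ≤ m) (hm' : 1 ≤ m') (hB : B b τ m) (ω : K → ℝ) :
    t0 ω b τ m' = 0 := by
  obtain ⟨w, h1, h2, h3, h4⟩ := hB
  unfold t0
  refine Finset.sum_eq_zero fun v hv => ?_
  exfalso
  have hv1 := mem_Sm.1 hv
  have h1' : w.1.natDegree ≤ m := nd (lt_trans h1 (by exact_mod_cast Nat.lt_succ_self m))
  have h2' : w.2.natDegree ≤ m - 1 := nd (by rw [Nat.sub_add_cancel hm]; exact h2)
  have h5 := iso hb hl hml hm hm' h1' h2' h3 (v' := v) hv1.1.2.le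
    (nd (by rw [Nat.sub_add_cancel hm']; exact hv1.2.1)) hv1.2.2
  have h6 : w.1.coeff m = 0 := coeff_eq_zero_of_degree_lt h1
  have h7 : v.1.coeff m' = 1 := by
    have h8 := hv1.1.1.coeff_natDegree
    rw [hv1.1.2] at h8
    exact h8
  rw [h6, h4, h7, zero_mul, mul_one] at h5
  exact zero_ne_one h5

/-- the counting argument -/
theorem count {q lam lam' s s' m m' l : ℕ} (hq : 2 ≤ q) (hml : m + m' = l) (hlam' : 0 < lam')
    (hs' : s' ≤ lam')
    (e1 : (lam + (q - 1) * s) * q ^ l = q ^ (2 * m + 1) * lam')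
    (e2 : (lam' + (q - 1) * s') * q ^ l = q ^ (2 * m' + 1) * lam) : s ≠ 0 := by
  intro hs
  rw [hs, mul_zero, add_zero] at e1
  have h1 : (lam' + (q - 1) * s') * q ^ (2 * l) = q ^ 2 * lam' * q ^ (2 * l) := by
    calc (lam' + (q - 1) * s') * q ^ (2 * l) = (lam' + (q - 1) * s') * q ^ l * q ^ l := by
          rw [two_mul, pow_add, mul_assoc]
      _ = q ^ (2 * m' + 1) * (lam * q ^ l) := by rw [e2, mul_assoc]
      _ = q ^ (2 * m' + 1) * (q ^ (2 * m + 1) * lam') := by rw [e1]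
      _ = q ^ 2 * lam' * q ^ (2 * l) := by
          rw [← hml]
          ring
  have hq0 : 0 < q ^ (2 * l) := pow_pos (by omega) _
  have h2 := Nat.eq_of_mul_eq_mul_right hq0 h1
  have h3 : lam' + (q - 1) * s' ≤ q * lam' := by
    calc lam' + (q - 1) * s' ≤ lam' + (q - 1) * lam' :=
          Nat.add_le_add_left (Nat.mul_le_mul_left _ hs') _
      _ = q * lam' := by
          obtain ⟨r, rfl⟩ : ∃ r, q = r + 1 := ⟨q - 1, by omega⟩
          rw [Nat.add_sub_cancel]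
          ring
  rw [h2] at h3
  have h4 : 0 < q * lam' := Nat.mul_pos (by omega) hlam'
  have h5 : q ^ 2 * lam' = q * (q * lam') := by ring
  have h6 : 2 * (q * lam') ≤ q * (q * lam') := Nat.mul_le_mul_right _ hq
  omega

theorem main_nat {ω : K → ℝ} (hω : ∑ c, ω c = 0) {b τ : K[X]} {m m' l : ℕ} (hb : b.Monic)
    (hl : b.natDegree = l) (hml : m + m' = l) (hm : 1 ≤ m) (hm' : 1 ≤ m') :
    t0 ω b τ m * (Fintype.card K : ℝ) ^ l = (Fintype.card K : ℝ) ^ (2 * m) * t0 ω b τ m' := by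
  have hml' : m' + m = l := by omega
  by_cases hB : B b τ m
  · rw [zero_of_B hB hω, empty_of_B hb hl hml hm hm' hB ω, zero_mul, mul_zero]
  by_cases hB' : B b τ m'
  · rw [zero_of_B hB' hω, empty_of_B hb hl hml' hm' hm hB' ω, zero_mul, mul_zero]
  have hq : 2 ≤ Fintype.card K := Fintype.one_lt_card
  have rr1 := Pool.Agent.H236.QF.t_rr K b τ l (m + 1) m hb hl (by omega) (by omega)
  have rr2 := Pool.Agent.H236.QF.t_rr K b τ l (m' + 1) m' hb hl (by omega) (by omega)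
  rw [show l - m = m' by omega, show l - (m + 1) = m' - 1 by omega, ← nB_L hB', L_split,
    show m + 1 + m = 2 * m + 1 by ring] at rr1
  rw [show l - m' = m by omega, show l - (m' + 1) = m - 1 by omega, ← nB_L hB, L_split,
    show m' + 1 + m' = 2 * m' + 1 by ring] at rr2
  have hle : ∀ k, (Sm b τ k).card ≤ L k k b τ := by
    intro k
    rcases (Sm b τ k).eq_empty_or_nonempty with h | ⟨v, hv⟩
    · rw [h, Finset.card_empty]
      exact Nat.zero_le _
    · exact (card_Sm hv).le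
  have hs := count hq hml (L_pos b τ m' m') (hle m') rr1 rr2
  have hs' := count hq hml' (L_pos b τ m m) (hle m) rr2 rr1
  obtain ⟨v₀, hv₀⟩ := Finset.card_pos.1 (Nat.pos_of_ne_zero hs)
  obtain ⟨v₁, hv₁⟩ := Finset.card_pos.1 (Nat.pos_of_ne_zero hs')
  rw [t0_eq hB hv₀ ω, t0_eq hB' hv₁ ω]
  have hv0 := mem_Sm.1 hv₀
  have hv1 := mem_Sm.1 hv₁
  have h5 := iso hb hl hml hm hm' (v := v₀) (v' := v₁) hv0.1.2.le
    (nd (by rw [Nat.sub_add_cancel hm]; exact hv0.2.1)) hv0.2.2 hv1.1.2.le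
    (nd (by rw [Nat.sub_add_cancel hm']; exact hv1.2.1)) hv1.2.2
  have h6 : v₀.1.coeff m = 1 := by
    have h8 := hv0.1.1.coeff_natDegree
    rw [hv0.1.2] at h8
    exact h8
  have h7 : v₁.1.coeff m' = 1 := by
    have h8 := hv1.1.1.coeff_natDegree
    rw [hv1.1.2] at h8
    exact h8
  rw [h6, h7, one_mul, one_mul] at h5
  rw [h5]
  rw [card_Sm hv₀] at rr1
  have h8 : L m m b τ * Fintype.card K ^ l = Fintype.card K ^ (2 * m) * L m' m' b τ := by
    have hq0 : 0 < Fintype.card K := by omega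
    apply Nat.eq_of_mul_eq_mul_left hq0
    obtain ⟨r, hr⟩ : ∃ r, Fintype.card K = r + 1 := ⟨Fintype.card K - 1, by omega⟩
    have h9 : L m m b τ + (Fintype.card K - 1) * L m m b τ = Fintype.card K * L m m b τ := by
      rw [hr, Nat.add_sub_cancel]
      ring
    rw [h9] at rr1
    calc Fintype.card K * (L m m b τ * Fintype.card K ^ l) =
          Fintype.card K * L m m b τ * Fintype.card K ^ l := by ring
      _ = Fintype.card K ^ (2 * m + 1) * L m' m' b τ := rr1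
      _ = Fintype.card K * (Fintype.card K ^ (2 * m) * L m' m' b τ) := by ring
  have h9 : (L m m b τ : ℝ) * (Fintype.card K : ℝ) ^ l =
      (Fintype.card K : ℝ) ^ (2 * m) * (L m' m' b τ : ℝ) := by exact_mod_cast h8
  calc (L m m b τ : ℝ) * ω (v₀.2.coeff (m - 1)) * (Fintype.card K : ℝ) ^ l =
        (L m m b τ : ℝ) * (Fintype.card K : ℝ) ^ l * ω (v₀.2.coeff (m - 1)) := by ring
    _ = _ := by rw [h9]; ring

theorem T0_nat (ω : K → ℝ) (b τ : K[X]) (m : ℕ) : T0 ω b τ (m : ℤ) = t0 ω b τ m := by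
  unfold T0
  rw [if_neg (by omega)]
  rfl

theorem T0_neg (ω : K → ℝ) (b τ : K[X]) {m : ℤ} (hm : m < 0) : T0 ω b τ m = 0 := by
  unfold T0
  rw [if_pos hm]

theorem T0_zero (ω : K → ℝ) {b τ : K[X]} (hb : b.Monic) (hl : 0 < b.natDegree) : t0 ω b τ 0 = 0 := by
  unfold t0
  refine Finset.sum_eq_zero fun v hv => ?_
  exfalso
  obtain ⟨⟨h1, h2⟩, h3, h4⟩ := mem_Sm.1 hv
  have h5 : v.1 = 1 := h1.natDegree_eq_zero.1 h2
  have h6 : v.2 = 0 := by
    by_contra h0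
    rw [degree_eq_natDegree h0] at h3
    have : v.2.natDegree < 0 := by exact_mod_cast h3
    omega
  rw [h5, h6, mul_zero, add_zero] at h4
  have h7 := natDegree_le_of_dvd h4 one_ne_zero
  rw [natDegree_one] at h7
  omega

end TW0

open TW0 in
/-- **TW0** -/
theorem t_tw0 : Pool.Agent.H525.EX.S_tw0 := by
  intro K _ _ ω hω b τ l hb hl m
  have hq : (Fintype.card K : ℝ) ≠ 0 := by exact_mod_cast Fintype.card_ne_zero
  by_cases hml : m = (l : ℤ) - m
  · rw [← hml]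
    have h1 : 2 * m - (l : ℤ) = 0 := by omega
    rw [h1, zpow_zero, one_mul]
  have hz : ∀ k : ℤ, (l : ℤ) ≤ k → 1 ≤ k → T0 ω b τ k = 0 := by
    intro k hk hk1
    obtain ⟨n, rfl⟩ := Int.eq_ofNat_of_zero_le (by omega : 0 ≤ k)
    rw [T0_nat]
    exact zero_of_B (B_of_ge hb hl (by omega) (by omega)) hω
  rcases lt_or_ge m 0 with hm | hm
  · rw [T0_neg ω b τ hm, hz ((l : ℤ) - m) (by omega) (by omega), mul_zero]
  rcases lt_or_ge (l : ℤ) m with hm2 | hm2
  · rw [hz m hm2.le (by omega), T0_neg ω b τ (by omega), mul_zero]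
  obtain ⟨n, rfl⟩ := Int.eq_ofNat_of_zero_le hm
  obtain ⟨n', hn'⟩ := Int.eq_ofNat_of_zero_le (by omega : 0 ≤ (l : ℤ) - n)
  have hsum : n + n' = l := by omega
  rw [hn']
  rcases Nat.eq_zero_or_pos n with hn0 | hn0
  · have h1 : 0 < l := by omega
    rw [T0_nat, T0_nat, hn0, T0_zero ω hb (by omega)]
    have h2 := hz (n' : ℤ) (by omega) (by omega)
    rw [T0_nat] at h2
    rw [h2, mul_zero]
  rcases Nat.eq_zero_or_pos n' with hn0' | hn0'
  · have h2 := hz (n : ℤ) (by omega) (by omega)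
    rw [h2, T0_nat, hn0', T0_zero ω hb (by omega), mul_zero]
  rw [T0_nat, T0_nat]
  have h3 := main_nat hω (τ := τ) hb hl hsum hn0 hn0'
  have h4 : (Fintype.card K : ℝ) ^ (2 * (n : ℤ) - (l : ℤ)) =
      (Fintype.card K : ℝ) ^ (2 * n) / (Fintype.card K : ℝ) ^ l := by
    have h5 : (2 * (n : ℤ)) = ((2 * n : ℕ) : ℤ) := by
      push_cast
      ring
    rw [h5, zpow_sub₀ hq, zpow_natCast, zpow_natCast]
  rw [h4, div_mul_eq_mul_div, ← h3, mul_div_assoc, div_self (pow_ne_zero _ hq), mul_one]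

end

end Pool.Agent.H200.EX
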